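import Mathlib
import Pool.Agent.Y959.Gen.Mont

set_option autoImplicit false

/-!
# Montgomery's large value conjecture on generic linear images of arbitrary configurations

`W` is an arbitrary finite set of integer vectors, in any dimension `d`, with coordinates at most `B`,
`s` are arbitrary real shifts, and `D(t) = ∑_{N ≤ n ≤ 2N} b_n n^{it}` is evaluated at the points
`x·a + s_a`, `a ∈ W`. For all `x` in the box `[Λ, 2Λ]^d`, outside a set of relative measure `N^{-C}`,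
the large sieve inequality of the quality of Montgomery's conjecture holds for ALL coefficients,
also for polynomials supported on an arbitrary set `I` of integers, with the number of elements of
`I` in place of `N`. Here `Λ` is any number at least `K (2N)^{k(B+1+A)}`: a power of `N` for
bounded `B`; for `d = 1` and `B` arbitrary the points are generic dilates `x a + s_a` of an
arbitrary finite set of integers.

Proof: the mean over `x` of the trace of the `k`-th power of the Gram matrix counts the solutions of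
`∑_j a_j ⊗ (v(n_{j+1}) - v(n_j)) = 0`, `v(n)` the vector of exponents of the primes in `n`. For a
cyclic sequence `(n_j)` whose quotients generate a group of rank `r` there are at most `|W|^{k-r}`
solutions `(a_j)`, and there are at most `N^{r+1}` such sequences, up to powers of `log N`.
-/

namespace Pool.Agent.Results.MP_ecd12e_nt.GenericLinearImages

open Finset MeasureTheory

/-- The point `x·a + s_a` of the real line. -/
noncomputable def point {d : ℕ} (s : (Fin d → ℤ) → ℝ) (x : Fin d → ℝ) (a : Fin d → ℤ) : ℝ :=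
  (∑ i, (a i : ℝ) * x i) + s a

/-- The Dirichlet polynomial `∑_{n ∈ I} b_n n^{it}`. -/
noncomputable def D (I : Finset ℕ) (b : ℕ → ℂ) (t : ℝ) : ℂ :=
  ∑ n ∈ I, b n * Complex.exp (Complex.I * (t : ℂ) * (Real.log (n : ℝ) : ℂ))

theorem result (ε A C : ℝ) (hε : 0 < ε) (hA : 0 ≤ A) (hC : 0 ≤ C) :
    (∃ (k : ℕ) (K : ℝ), 1 ≤ K ∧ ∀ M : ℕ, 1 ≤ M → ∀ I : Finset ℕ, (∀ n ∈ I, 1 ≤ n ∧ n ≤ M) →
      ∀ (d B : ℕ) (W : Finset (Fin d → ℤ)) (s : (Fin d → ℤ) → ℝ) (Λ : ℝ),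
        (∀ a ∈ W, ∀ i, |a i| ≤ B) → (W.card : ℝ) ≤ (M : ℝ) ^ A →
        K * (M : ℝ) ^ ((k : ℝ) * (B + 1 + A)) ≤ Λ →
        ∃ E : Set (Fin d → ℝ), MeasurableSet E ∧
          volume E ≤ ENNReal.ofReal ((M : ℝ) ^ (-C) * Λ ^ d) ∧
          ∀ x : Fin d → ℝ, (∀ i, x i ∈ Set.Icc Λ (2 * Λ)) → x ∉ E → ∀ b : ℕ → ℂ,
            ∑ a ∈ W, ‖D I b (point s x a)‖ ^ 2 ≤
              K * (M : ℝ) ^ ε * ((I.card : ℝ) + W.card) * ∑ n ∈ I, ‖b n‖ ^ 2) ∧
    (∃ (k : ℕ) (K : ℝ), 1 ≤ K ∧ ∀ N : ℕ, 1 ≤ N →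
      ∀ (d B : ℕ) (W : Finset (Fin d → ℤ)) (s : (Fin d → ℤ) → ℝ) (Λ : ℝ),
        (∀ a ∈ W, ∀ i, |a i| ≤ B) → (W.card : ℝ) ≤ (N : ℝ) ^ A →
        K * (2 * N : ℝ) ^ ((k : ℝ) * (B + 1 + A)) ≤ Λ →
        ∃ E : Set (Fin d → ℝ), MeasurableSet E ∧
          volume E ≤ ENNReal.ofReal ((N : ℝ) ^ (-C) * Λ ^ d) ∧
          ∀ x : Fin d → ℝ, (∀ i, x i ∈ Set.Icc Λ (2 * Λ)) → x ∉ E → ∀ b : ℕ → ℂ,
            (∀ n, ‖b n‖ ≤ 1) → ∀ σ : ℝ,
              ((W.filter (fun a => (N : ℝ) ^ σ < ‖D (Icc N (2 * N)) b (point s x a)‖)).card : ℝ) ≤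
                K * (1 + W.card / N) * (N : ℝ) ^ (2 - 2 * σ + ε) ∧
              (1 / 2 + ε ≤ σ →
                (∀ a ∈ W, (N : ℝ) ^ σ < ‖D (Icc N (2 * N)) b (point s x a)‖) →
                (W.card : ℝ) ≤ K * (N : ℝ) ^ (2 - 2 * σ + ε))) := by
  refine ⟨Pool.Agent.Y959.Gen.asym ε A C hε hA, ?_⟩
  obtain ⟨k, K, hK, h⟩ := Pool.Agent.Y959.Gen.mont ε A C hε hA hC
  refine ⟨k, K, hK, ?_⟩
  intro N hN d B W s Λ hB hW hΛ
  obtain ⟨E, hE1, hE2, hE3⟩ := h N hN d B W s Λ hB hW hΛ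
  refine ⟨E, hE1, hE2, ?_⟩
  intro x hx hxE b hb σ
  obtain ⟨_, h2, h3⟩ := hE3 x hx hxE b
  exact ⟨h2 hb σ, h3 hb σ⟩

end Pool.Agent.Results.MP_ecd12e_nt.GenericLinearImages
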