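import Mathlib
import Pool.Agent.Results.MP_a93a41_nt.RandomSetsSharpRange

set_option autoImplicit false

/-!
# MP_ecd12e_nt: Q1 without loss inside random sets of integers

`M` integers of `[0, T)`, `T ≥ N^k`, are chosen independently at random. With probability at least
`1 - N^(-A)`, for ALL coefficients `|b_n| ≤ 1`, all `σ` with `C M ≤ N^(1 + (2σ-1)(k-1) - ε)` and ALL
subsets `W` of the chosen points with `|D(t)| > N^σ` on `W`: `|W| ≤ C N^(2-2σ)`.
-/

namespace Pool.Agent.Results.MP_ecd12e_nt.RandomSets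

open Finset

/-- `D(t) = ∑_{n=N}^{2N} b_n n^{it}`, as in the problem -/
noncomputable def D (N : ℕ) (b : ℕ → ℂ) (t : ℝ) : ℂ :=
  ∑ n ∈ Icc N (2 * N), b n * (n : ℂ) ^ ((t : ℂ) * Complex.I)

/-- for ALL coefficients `|b_n| ≤ 1`, all real `σ` with `C M ≤ N^(1 + (2σ-1)(k-1) - ε)` and ALL sets
`W` of indices with `|D(u_i)| > N^σ` for `i ∈ W`: `|W| ≤ C N^(2-2σ)` -/
def Good {M T : ℕ} (N k : ℕ) (C ε : ℝ) (u : Fin M → Fin T) : Prop :=
  ∀ (b : ℕ → ℂ), (∀ n ∈ Icc N (2 * N), ‖b n‖ ≤ 1) → ∀ σ : ℝ,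
    C * M ≤ (N : ℝ) ^ (1 + (2 * σ - 1) * ((k : ℝ) - 1) - ε) →
    ∀ W : Finset (Fin M), (∀ i ∈ W, (N : ℝ) ^ σ < ‖D N b ((u i : ℕ) : ℝ)‖) →
      (W.card : ℝ) ≤ C * (N : ℝ) ^ (2 - 2 * σ)

/-- **Main theorem.** -/
theorem result (ε A B : ℝ) (hε : 0 < ε) (hA : 0 ≤ A) (hB : 0 ≤ B) (k : ℕ) (hk : 1 ≤ k) :
    ∃ C : ℝ, 0 < C ∧ ∀ N M T : ℕ, 1 ≤ N → (M : ℝ) ≤ (N : ℝ) ^ B → N ^ k ≤ T →
      (Nat.card {u : Fin M → Fin T // ¬ Good N k C ε u} : ℝ) ≤ (N : ℝ) ^ (-A) * (T : ℝ) ^ M := by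
  obtain ⟨C0, hC0, h⟩ :=
    Pool.Agent.Results.MP_a93a41_nt.RandomSetsSharpRange.result ε A B hε hA hB k hk
  set C1 : ℝ := C0 * (2:ℝ) ^ ε * (1 + 2 ^ k) * 2 ^ (k - 1) with hC1
  refine ⟨max C1 (4 * (C0 + 1)), by positivity, ?_⟩
  intro N M T hN hM hT
  have hNr : (1 : ℝ) ≤ N := by exact_mod_cast hN
  have hN0 : (0 : ℝ) < N := by linarith
  have hT1 : 1 ≤ T := le_trans (Nat.one_le_pow _ _ hN) hT
  have hTr : (N : ℝ) ^ k ≤ T := by exact_mod_cast hT
  have hT0 : (0 : ℝ) < T := by exact_mod_cast hT1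
  have hM2 : (M : ℝ) ≤ ((2 * N : ℕ) : ℝ) ^ B := by
    refine hM.trans ?_
    apply Real.rpow_le_rpow hN0.le _ hB
    push_cast
    linarith
  have h1 := h (2 * N) M T (by omega) hM2 hT1 (Icc N (2 * N))
    (fun n hn => by rw [mem_Icc] at hn ⊢; omega) (fun _ => 0)
  have h2 : ((2 * N : ℕ) : ℝ) ^ (-A) ≤ (N : ℝ) ^ (-A) := by
    apply Real.rpow_le_rpow_of_nonpos hN0 _ (by linarith)
    push_cast
    linarith
  have h3 : (Nat.card {u : Fin M → Fin T // ¬ Good N k (max C1 (4 * (C0 + 1))) ε u} : ℝ) ≤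
      (Nat.card {u : Fin M → Fin T //
          ¬ Pool.Agent.Results.MP_a93a41_nt.RandomSetsSharpRange.LargeValues (Icc N (2 * N)) (2 * N) T k C0
            (((2 * N : ℕ) : ℝ) ^ ε) (fun i => 0 + ((u i : ℕ) : ℝ))} : ℝ) := by
    have : Nat.card {u : Fin M → Fin T // ¬ Good N k (max C1 (4 * (C0 + 1))) ε u} ≤
      Nat.card {u : Fin M → Fin T //
          ¬ Pool.Agent.Results.MP_a93a41_nt.RandomSetsSharpRange.LargeValues (Icc N (2 * N)) (2 * N) T k C0
            (((2 * N : ℕ) : ℝ) ^ ε) (fun i => 0 + ((u i : ℕ) : ℝ))} := by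
      apply Nat.card_mono (Set.toFinite _)
      intro u hu hL
      apply hu
      intro b hb σ hσ W hW
      have hV : 0 < (N : ℝ) ^ σ := by positivity
      have hIc : ((Icc N (2 * N)).card : ℝ) = N + 1 := by
        rw [Nat.card_Icc]
        have : 2 * N + 1 - N = N + 1 := by omega
        rw [this]
        push_cast
        ring
      have hG : Pool.Agent.Results.MP_a93a41_nt.RandomSetsSharpRange.G (Icc N (2 * N))
          (fun n => (starRingEnd ℂ) (b n)) ≤ 2 * N := by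
        unfold Pool.Agent.Results.MP_a93a41_nt.RandomSetsSharpRange.G
        calc ∑ n ∈ Icc N (2 * N), ‖(starRingEnd ℂ) (b n)‖ ^ 2 ≤ ∑ n ∈ Icc N (2 * N), (1:ℝ) := by
              apply sum_le_sum
              intro n hn
              rw [RCLike.norm_conj]
              have := hb n hn
              have h0 := norm_nonneg (b n)
              nlinarith
          _ = (N : ℝ) + 1 := by rw [sum_const, nsmul_eq_mul, mul_one, hIc]
          _ ≤ 2 * N := by linarith
      have hG0 : 0 ≤ Pool.Agent.Results.MP_a93a41_nt.RandomSetsSharpRange.G (Icc N (2 * N))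
          (fun n => (starRingEnd ℂ) (b n)) := sum_nonneg fun _ _ => sq_nonneg _
      set G := Pool.Agent.Results.MP_a93a41_nt.RandomSetsSharpRange.G (Icc N (2 * N))
          (fun n => (starRingEnd ℂ) (b n)) with hGd
      have hDn : ∀ t : ℝ, ‖Pool.Agent.Results.MP_a93a41_nt.RandomSetsSharpRange.D (Icc N (2 * N))
          (fun n => (starRingEnd ℂ) (b n)) t‖ = ‖D N b t‖ := by
        intro t
        rw [← Complex.norm_conj (D N b t)]
        congr 1
        unfold D Pool.Agent.Results.MP_a93a41_nt.RandomSetsSharpRange.D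
        rw [map_sum]
        apply sum_congr rfl
        intro n hn
        have hn0 : (n : ℂ) ≠ 0 := by
          have := (mem_Icc.1 hn).1
          exact_mod_cast (by omega : n ≠ 0)
        rw [map_mul]
        congr 1
        rw [Complex.cpow_def_of_ne_zero hn0, Complex.cpow_def_of_ne_zero hn0, ← Complex.exp_conj,
          ← Complex.natCast_log]
        congr 1
        simp only [map_mul, Complex.conj_ofReal, Complex.conj_I]
        ring
      obtain ⟨-, h5⟩ := hL (fun n => (starRingEnd ℂ) (b n)) ((N : ℝ) ^ σ) W hV (fun i hi => by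
        have h6 := (hW i hi).le
        simp only [zero_add]
        rw [hDn]
        exact h6)
      have hk' : k ∈ Icc 1 k := mem_Icc.2 ⟨hk, le_rfl⟩
      have hcond : C0 * (((2 * N : ℕ) : ℝ) ^ ε) * M * (1 + ((2 * N : ℕ) : ℝ) ^ k / T) * G ^ (k - 1) ≤
          ((N : ℝ) ^ σ) ^ (2 * (k - 1)) * ((Icc N (2 * N)).card : ℝ) := by
        have e1 : (((2 * N : ℕ) : ℝ) ^ ε) = (2:ℝ) ^ ε * (N : ℝ) ^ ε := by
          push_cast
          rw [Real.mul_rpow (by norm_num) hN0.le]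
        have e2 : 1 + ((2 * N : ℕ) : ℝ) ^ k / T ≤ 1 + 2 ^ k := by
          have : ((2 * N : ℕ) : ℝ) ^ k / T ≤ 2 ^ k := by
            rw [div_le_iff₀ hT0]
            push_cast
            rw [mul_pow]
            gcongr
          linarith
        have e3 : G ^ (k - 1) ≤ 2 ^ (k - 1) * (N : ℝ) ^ (k - 1) := by
          rw [← mul_pow]
          exact pow_le_pow_left₀ hG0 hG _
        have e4 : C1 * M ≤ (N : ℝ) ^ (1 + (2 * σ - 1) * ((k : ℝ) - 1) - ε) := by
          refine le_trans ?_ hσ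
          gcongr
          exact le_max_left _ _
        have e5 : (N : ℝ) ^ (1 + (2 * σ - 1) * ((k : ℝ) - 1) - ε) * ((N : ℝ) ^ ε * (N : ℝ) ^ (k - 1)) =
            ((N : ℝ) ^ σ) ^ (2 * (k - 1)) * N := by
          have a1 : (N : ℝ) ^ (k - 1) = (N : ℝ) ^ ((k : ℝ) - 1) := by
            rw [← Real.rpow_natCast]
            congr 1
            rw [Nat.cast_sub hk]
            norm_num
          have a2 : ((N : ℝ) ^ σ) ^ (2 * (k - 1)) = (N : ℝ) ^ (σ * (2 * ((k : ℝ) - 1))) := by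
            rw [← Real.rpow_natCast, ← Real.rpow_mul hN0.le]
            congr 1
            push_cast [Nat.cast_sub hk]
            ring
          have a3 : (N : ℝ) ^ (σ * (2 * ((k : ℝ) - 1))) * N =
              (N : ℝ) ^ (σ * (2 * ((k : ℝ) - 1)) + 1) := by
            rw [Real.rpow_add hN0, Real.rpow_one]
          rw [a1, a2, a3, ← Real.rpow_add hN0, ← Real.rpow_add hN0]
          congr 1
          ring
        calc C0 * (((2 * N : ℕ) : ℝ) ^ ε) * M * (1 + ((2 * N : ℕ) : ℝ) ^ k / T) * G ^ (k - 1)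
            ≤ C0 * ((2:ℝ) ^ ε * (N : ℝ) ^ ε) * M * (1 + 2 ^ k) * (2 ^ (k - 1) * (N : ℝ) ^ (k - 1)) := by
              rw [e1]
              gcongr
          _ = (C1 * M) * ((N : ℝ) ^ ε * (N : ℝ) ^ (k - 1)) := by rw [hC1]; ring
          _ ≤ (N : ℝ) ^ (1 + (2 * σ - 1) * ((k : ℝ) - 1) - ε) * ((N : ℝ) ^ ε * (N : ℝ) ^ (k - 1)) := by
              gcongr
          _ = ((N : ℝ) ^ σ) ^ (2 * (k - 1)) * N := e5
          _ ≤ ((N : ℝ) ^ σ) ^ (2 * (k - 1)) * ((Icc N (2 * N)).card : ℝ) := by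
              rw [hIc]
              gcongr
              linarith
      have h6 := h5 k hk' hcond
      rw [hIc] at h6
      have h7 : ((N : ℝ) ^ σ) ^ 2 * W.card ≤ 4 * (C0 + 1) * ((N : ℝ) * N) := by
        refine h6.trans ?_
        calc (C0 + 1) * ((N : ℝ) + 1) * G ≤ (C0 + 1) * (2 * N) * (2 * N) := by
              gcongr
              linarith
          _ = _ := by ring
      have e6 : (N : ℝ) * N = ((N : ℝ) ^ σ) ^ 2 * (N : ℝ) ^ (2 - 2 * σ) := by
        have a1 : ((N : ℝ) ^ σ) ^ 2 = (N : ℝ) ^ (2 * σ) := by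
          rw [← Real.rpow_natCast, ← Real.rpow_mul hN0.le]
          congr 1
          push_cast
          ring
        rw [a1, ← Real.rpow_add hN0]
        have : 2 * σ + (2 - 2 * σ) = 2 := by ring
        rw [this]
        have a4 : (N : ℝ) ^ (2:ℝ) = (N : ℝ) ^ 2 := by norm_cast
        rw [a4]
        ring
      rw [e6] at h7
      have h8 : ((N : ℝ) ^ σ) ^ 2 * W.card ≤ ((N : ℝ) ^ σ) ^ 2 * (4 * (C0 + 1) * (N : ℝ) ^ (2 - 2 * σ)) := by
        refine h7.trans (le_of_eq ?_)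
        ring
      have h9 := le_of_mul_le_mul_left h8 (by positivity)
      refine h9.trans ?_
      gcongr
      exact le_max_right _ _
    exact_mod_cast this
  calc _ ≤ _ := h3
    _ ≤ ((2 * N : ℕ) : ℝ) ^ (-A) * (T : ℝ) ^ M := h1
    _ ≤ (N : ℝ) ^ (-A) * (T : ℝ) ^ M := by gcongr

end Pool.Agent.Results.MP_ecd12e_nt.RandomSets
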