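import Mathlib
import Pool.Agent.Y959.Rs.Fin

set_option autoImplicit false

/-!
# Large sieve and large values of Dirichlet polynomials supported on random sets

`I` is a set of `k` integers of `[N, 2N]`, chosen at random, and `D(t) = ∑_{n ∈ I} b_n n^{it}` with
ARBITRARY coefficients `b_n`, `n ∈ I`, evaluated at an ARBITRARY set `W` of integers of `[0, T]`,
`T ≤ N^Q`. For all but a proportion `N^(-A)` of the sets `I` the following holds simultaneously for all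
`b` and all `W`, with `G = ∑ |b_n|²`, `η = 1 / (4 Q 2^Q)`.

* `∑_{t ∈ W} |D(t)|² ≤ C N^ε (k + |W| (1 + k N^(-η))) G`.
* If `T ≤ N²`: `∑_{t ∈ W} |D(t)|² ≤ C N^ε (k + |W| (1 + (k/N) √T)) G`: the inequality of Halász and
  Montgomery `(N + |W| √T) G` with the additional factor `k/N`, the density of the support.

So for `k ≤ N/√T`, and for `k ≤ N^η` and any `T ≤ N^Q`, the large sieve inequality
`∑_{t ∈ W} |D(t)|² ≤ C N^ε (k + |W|) G` of the quality of Montgomery's conjecture holds, in the form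
normalized in `ℓ²` (false for certain sparse supports, by Bourgain), and `|W| ≤ C N^ε k G / V²` as soon
as `|D| ≥ V` on `W` and `V² > C' N^ε G`.

* Moments: if `|D| ≥ V` on `W` then either `V² ≤ C N^ε G` or
  `|W| ≤ C N^ε (k G / V² + (T + N^κ) (k G / (N V²))^κ)` for all `κ = 1, …, Q`.
* Q1 for random supports: if `|b_n| ≤ 1`, `T ≤ N^κ`, `σ ≥ 1/2 + ε`, `k ≤ N^(1 - (1 - 1/κ)(1 - σ))` and
  `|D| > N^σ` on `W`, then `|W| ≤ C N^(2 - 2σ + ε)`. (The moments give this for all supports of size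
  `k ≤ N^(1 - 2(1 - 1/κ)(1 - σ))` only.)

Proof: for fixed signs `β`, the function `f = ∑_{t ∈ W} β_t n^{it}` is approximated, uniformly in `n`, by
sums over few elements of `W` (method of Maurey), so that a union bound over few functions gives
`∑_{n ∈ I} |f(n)|² ≤ C N^ε ((k/N) ∑_{n ∈ [N,2N]} |f(n)|² + |W|² + k)` for all `W` and `β`. The sum over all
`n` is estimated by the kernel `∑ n^{it}` or by the moments.
-/

namespace Pool.Agent.Results.MP_ecd12e_nt.RandomSupports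

open Finset

/-- The Dirichlet polynomial `D(t) = ∑_{n ∈ I} b_n n^{it}`. -/
noncomputable def D (I : Finset ℕ) (b : ℕ → ℂ) (t : ℝ) : ℂ :=
  ∑ n ∈ I, b n * Complex.exp (Complex.I * (t : ℂ) * (Real.log (n : ℝ) : ℂ))

/-- The large sieve and large value inequalities for all coefficients on `I` and all `W ⊂ [0,T]`. -/
def Good (ε : ℝ) (Q : ℕ) (C : ℝ) (N T k : ℕ) (I : Finset ℕ) : Prop :=
  ∀ (W : Finset ℕ) (b : ℕ → ℂ), (∀ t ∈ W, t ≤ T) →
    (∑ t ∈ W, ‖D I b t‖ ^ 2 ≤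
      C * (N : ℝ) ^ ε * (k + W.card * (1 + k * (N : ℝ) ^ (-(1 / (4 * Q * 2 ^ Q) : ℝ)))) *
        ∑ n ∈ I, ‖b n‖ ^ 2) ∧
    ((T : ℝ) ≤ (N : ℝ) ^ 2 → ∑ t ∈ W, ‖D I b t‖ ^ 2 ≤
      C * (N : ℝ) ^ ε * (k + W.card * (1 + k / N * Real.sqrt T)) * ∑ n ∈ I, ‖b n‖ ^ 2) ∧
    (∀ κ : ℕ, 1 ≤ κ → κ ≤ Q → ∀ V : ℝ, 0 < V → (∀ t ∈ W, V ≤ ‖D I b t‖) →
      V ^ 2 ≤ C * (N : ℝ) ^ ε * ∑ n ∈ I, ‖b n‖ ^ 2 ∨
        (W.card : ℝ) ≤ C * (N : ℝ) ^ ε * (k * (∑ n ∈ I, ‖b n‖ ^ 2) / V ^ 2 +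
          (T + (N : ℝ) ^ κ) * (k * (∑ n ∈ I, ‖b n‖ ^ 2) / (N * V ^ 2)) ^ κ)) ∧
    ((∀ n, ‖b n‖ ≤ 1) → ∀ (σ : ℝ) (κ : ℕ), 1 / 2 + ε ≤ σ → 1 ≤ κ → κ ≤ Q → (T : ℝ) ≤ (N : ℝ) ^ κ →
      (k : ℝ) ≤ (N : ℝ) ^ (1 - (1 - 1 / (κ : ℝ)) * (1 - σ)) →
      (∀ t ∈ W, (N : ℝ) ^ σ < ‖D I b t‖) → (W.card : ℝ) ≤ C * (N : ℝ) ^ (2 - 2 * σ + ε))

open Classical in
theorem result (ε A : ℝ) (hε : 0 < ε) (hA : 0 ≤ A) (Q : ℕ) (hQ : 1 ≤ Q) :
    ∃ C : ℝ, 0 < C ∧ ∀ N T k : ℕ, 1 ≤ N → (T : ℝ) ≤ (N : ℝ) ^ Q →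
      (((powersetCard k (Icc N (2 * N))).filter (fun I => ¬ Good ε Q C N T k I)).card : ℝ) ≤
        (N : ℝ) ^ (-A) * ((powersetCard k (Icc N (2 * N))).card : ℝ) := by
  obtain ⟨C, hC, h⟩ := Pool.Agent.Y959.Rs.good1_count ε A hε hA Q hQ
  have hC0 : 0 < C := by linarith
  have hb : 0 ≤ (2 * C) ^ ((Q : ℝ) / ε) := by positivity
  refine ⟨8 * (2 * C) ^ ((Q : ℝ) / ε) + 6 * C, by positivity, ?_⟩
  intro N T k hN hT
  have hN1 : (1 : ℝ) ≤ N := by exact_mod_cast hN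
  have hN0 : (0 : ℝ) < N := by linarith
  refine le_trans ?_ (h N T k hN hT)
  have hsub : (powersetCard k (Icc N (2 * N))).filter
      (fun I => ¬ Good ε Q (8 * (2 * C) ^ ((Q : ℝ) / ε) + 6 * C) N T k I) ⊆
      (powersetCard k (Icc N (2 * N))).filter
        (fun I => ¬ Pool.Agent.Y959.Rs.Good1 N T k Q C ε I) := by
    intro I hI
    rw [mem_filter] at hI ⊢
    refine ⟨hI.1, fun hG => hI.2 ?_⟩
    have hIF := (mem_powersetCard.1 hI.1).1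
    have hIk := (mem_powersetCard.1 hI.1).2
    intro W b hW
    have hCC : C ≤ 8 * (2 * C) ^ ((Q : ℝ) / ε) + 6 * C := by linarith
    have hNε : 0 ≤ (N : ℝ) ^ ε := by positivity
    have hCN : C * (N : ℝ) ^ ε ≤ (8 * (2 * C) ^ ((Q : ℝ) / ε) + 6 * C) * (N : ℝ) ^ ε :=
      mul_le_mul_of_nonneg_right hCC hNε
    have hG0 : 0 ≤ ∑ n ∈ I, ‖b n‖ ^ 2 := sum_nonneg fun _ _ => sq_nonneg _
    obtain ⟨h1, h2, h3⟩ := hG W b hW
    refine ⟨?_, ?_, ?_, ?_⟩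
    · refine le_trans h1 ?_
      apply mul_le_mul_of_nonneg_right _ hG0
      exact mul_le_mul_of_nonneg_right hCN (by positivity)
    · intro hT2
      refine le_trans (h2 hT2) ?_
      apply mul_le_mul_of_nonneg_right _ hG0
      exact mul_le_mul_of_nonneg_right hCN (by positivity)
    · intro κ hκ1 hκQ V hV hVW
      rcases h3 κ hκ1 hκQ V hV hVW with h4 | h4
      · exact Or.inl (h4.trans (mul_le_mul_of_nonneg_right hCN hG0))
      · exact Or.inr (h4.trans (mul_le_mul_of_nonneg_right hCN (by positivity)))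
    · intro hb1 σ κ hσ hκ1 hκQ hTκ hk hVW
      exact Pool.Agent.Y959.Rs.mont1 ε hε Q hQ C hC N T k hN hT I hIF hIk hG W hW b hb1 σ hσ κ hκ1
        hκQ hTκ hk hVW
  exact_mod_cast card_le_card hsub

end Pool.Agent.Results.MP_ecd12e_nt.RandomSupports
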